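import Pool.Agent.H979.DE.Stm

set_option autoImplicit false

open MeasureTheory Finset Filter Pool.Agent.H41.Derrw Pool.Agent.H979.DE

namespace Pool.Agent.H163

theorem de_circ {V : Type} {G : SimpleGraph V} {a : V} (c : G.Walk a a) (hc : c.IsCycle) :
    ∃ (l : ℕ) (u : ZMod l → V), IsCircuit G l u := by
  have h3 : 3 ≤ c.length := hc.three_le_length
  have : NeZero c.length := ⟨by omega⟩
  have : Fact (1 < c.length) := ⟨by omega⟩
  refine ⟨c.length, fun i => c.getVert i.val, h3, ?_, ?_⟩
  · intro i j hij
    apply ZMod.val_injective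
    have hi := ZMod.val_lt i
    have hj := ZMod.val_lt j
    refine hc.getVert_injOn' ?_ ?_ hij
    · show i.val ≤ c.length - 1
      omega
    · show j.val ≤ c.length - 1
      omega
  · intro i
    show G.Adj (c.getVert i.val) (c.getVert (i + 1).val)
    have hi := ZMod.val_lt i
    have hadj := c.adj_getVert_succ hi
    have hv : (i + 1).val = (i.val + 1) % c.length := by
      rw [ZMod.val_add, ZMod.val_one]
    by_cases hlt : i.val + 1 < c.length
    · rw [hv, Nat.mod_eq_of_lt hlt]
      exact hadj
    · have he : i.val + 1 = c.length := by omega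
      rw [hv, he, Nat.mod_self, SimpleGraph.Walk.getVert_zero]
      rw [he, SimpleGraph.Walk.getVert_length] at hadj
      exact hadj

theorem de_lex (h : S_LAS) : S_LEX := by
  intro V _ _ G _ hconn hac
  classical
  -- a cycle
  have hex : ∃ (a : V) (c : G.Walk a a), c.IsCycle := by
    by_contra hne
    apply hac
    intro v c hc
    exact hne ⟨v, c, hc⟩
  obtain ⟨a, c, hc⟩ := hex
  obtain ⟨l, u, hu⟩ := de_circ c hc
  refine ⟨Fintype.card V + 2 * l, ?_⟩
  intro x n hx
  obtain ⟨p⟩ := hconn.preconnected (x n) (u 0)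
  set q := p.toPath with hq
  have hqlen : (q : G.Walk (x n) (u 0)).length < Fintype.card V := q.2.length_lt
  set w : G.Walk (x n) (u 0) := (q : G.Walk (x n) (u 0)) with hw
  set t := w.length with ht
  let y : ℕ → V := fun k => if k ≤ n then x k else if k ≤ n + t then w.getVert (k - n)
    else u ((k - n - t : ℕ) : ZMod l)
  have y1 : ∀ k ≤ n, y k = x k := by
    intro k hk
    simp only [y]
    rw [if_pos hk]
  have y2 : ∀ j ≤ t, y (n + j) = w.getVert j := by
    intro j hj
    rcases Nat.eq_zero_or_pos j with h0 | h0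
    · subst h0
      rw [y1 (n + 0) (by omega), SimpleGraph.Walk.getVert_zero, Nat.add_zero]
    · simp only [y]
      rw [if_neg (by omega), if_pos (by omega)]
      have : n + j - n = j := by omega
      rw [this]
  have y3 : ∀ j, y (n + t + j) = u (j : ZMod l) := by
    intro j
    rcases Nat.eq_zero_or_pos j with h0 | h0
    · subst h0
      have := y2 t le_rfl
      rw [ht, SimpleGraph.Walk.getVert_length] at this
      rw [Nat.add_zero, Nat.cast_zero]
      exact this
    · simp only [y]
      rw [if_neg (by omega), if_neg (by omega)]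
      have : n + t + j - n - t = j := by omega
      rw [this]
  have yv : ∀ k, G.Adj (y k) (y (k + 1)) := by
    intro k
    rcases lt_or_ge k n with hk | hk
    · rw [y1 k hk.le, y1 (k + 1) hk]
      exact hx k hk
    · rcases lt_or_ge k (n + t) with hk2 | hk2
      · obtain ⟨j, rfl⟩ := Nat.exists_eq_add_of_le hk
        rw [y2 j (by omega), Nat.add_assoc, y2 (j + 1) (by omega)]
        exact w.adj_getVert_succ (by omega)
      · obtain ⟨j, rfl⟩ := Nat.exists_eq_add_of_le hk2
        rw [y3 j, Nat.add_assoc (n + t) j 1, y3 (j + 1), Nat.cast_add, Nat.cast_one]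
        exact hu.2.2 _
  refine ⟨y, y1, fun N k _ => yv k, ?_⟩
  obtain ⟨k, hk1, hk2, hk3⟩ := h V G y (n + t) l u hu (fun k _ => yv k) (fun i _ => y3 i)
  refine ⟨k, by omega, by omega, hk3⟩

end Pool.Agent.H163
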