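import Pool.Agent.H770.GS.UQC

set_option autoImplicit false

open MeasureTheory Set Filter Topology

namespace Pool.Agent.H163.UQ23

open Pool.Agent.H770.GS

theorem uq23 : Pool.Agent.H770.GS.S_srt := by
  intro r n θ hr hθ
  have hv : ‖vec n (srt θ)‖ = 1 := vec_norm (srt_length θ) (srt_sq θ hθ)
  have h1 : Pool.Agent.Helper82.GC.Asl r (vec n (srt θ)) 0 = Pool.Agent.Helper82.GC.Asl r θ 0 := by
    refine tendsto_nhds_unique (dens_tendsto hr _ hv) ?_
    refine (dens_tendsto hr θ hθ).congr fun τ => ?_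
    rw [dens_srt θ, ofFn_vec (srt_length θ)]
  exact ⟨h1, fun h => ⟨srt_length θ, srt_sq θ hθ, srt_nonneg θ, fun θ' h' => (h θ' h').trans h1.ge⟩⟩

end Pool.Agent.H163.UQ23
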